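import Pool.Agent.Helper97.Tate.Goals

/-! Project FewPoints (MP_d3128a_ag), packet TATE-DVM (helper79): several zeros of a theta function. -/

set_option autoImplicit false

noncomputable section

namespace Pool.Agent.Helper79.Tate.DVM

open Pool.Agent.Helper97.Tate

lemma isUnit_of_cc {K : Type} [Field K] {u : PowerSeries K}
    (h : PowerSeries.constantCoeff u ≠ 0) : IsUnit u :=
  PowerSeries.isUnit_iff_constantCoeff.2 (isUnit_iff_ne_zero.2 h)

lemma dvd_of_unit {K : Type} [Field K] {u g : PowerSeries K} {n : ℕ}
    (h : PowerSeries.constantCoeff u ≠ 0) (hd : PowerSeries.X ^ n ∣ u * g) :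
    PowerSeries.X ^ n ∣ g :=
  ((isUnit_of_cc h).dvd_mul_left).1 hd

lemma dvd_of_simple {K : Type} [Field K] {t g : PowerSeries K} {n : ℕ}
    (h0 : PowerSeries.constantCoeff t = 0) (h1 : PowerSeries.coeff 1 t ≠ 0)
    (hd : PowerSeries.X ^ (n + 1) ∣ t * g) : PowerSeries.X ^ n ∣ g := by
  obtain ⟨u, hu⟩ := PowerSeries.X_dvd_iff.2 h0
  have hu1 : PowerSeries.constantCoeff u ≠ 0 := by
    rw [hu] at h1
    have : PowerSeries.coeff 1 (PowerSeries.X * u) = PowerSeries.constantCoeff u := by
      rw [show (1 : ℕ) = 0 + 1 from rfl, PowerSeries.coeff_succ_X_mul,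
        PowerSeries.coeff_zero_eq_constantCoeff_apply]
    rwa [this] at h1
  rw [hu, pow_succ', mul_assoc] at hd
  exact dvd_of_unit hu1 ((mul_dvd_mul_iff_left PowerSeries.X_ne_zero).1 hd)

lemma prod_single {M : Type} [CommMonoid M] (a : Fin 9 → M) (e : Fin 9 → ℕ) (i : Fin 9) :
    ∏ j, a j ^ (e j + (Pi.single i 1 : Fin 9 → ℕ) j) = (∏ j, a j ^ e j) * a i := by
  simp_rw [pow_add]
  rw [Finset.prod_mul_distrib]
  congr 1
  rw [Finset.prod_eq_single i]
  · simp
  · intro j _ hj
    simp [Pi.single_eq_of_ne hj]
  · intro h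
    exact absurd (Finset.mem_univ i) h

theorem t (h1 : S_DIV) (h2 : S_THZ) : S_DVM := by
  intro k _ w hw
  have key : ∀ n : ℕ, ∀ (e : Fin 9 → ℕ) (κ : ℕ) (c : k) (f : SS k), ∑ i, e i = n → 1 ≤ κ →
      c ≠ 0 → IsTh (κ + ∑ i, e i) c f → (∀ i, PowerSeries.X ^ e i ∣ evK (w i) f) →
      ∃ (N : ℕ) (h : SS k), IsTh κ (c * ∏ i, (-(w i : k)) ^ e i) h ∧
        PowerSeries.X ^ N * f = (∏ i, th (w i) ^ e i) * h := by
    intro n
    induction n with
    | zero =>
      intro e κ c f hs hκ hc hf _
      have he : ∀ i, e i = 0 := fun i => by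
        have := Finset.sum_eq_zero_iff.1 hs i (Finset.mem_univ i)
        exact this
      refine ⟨0, f, ?_, ?_⟩
      · rw [hs, add_zero] at hf
        simpa [he] using hf
      · simp [he]
    | succ n ih =>
      intro e κ c f hs hκ hc hf hd
      have hex : ∃ i, e i ≠ 0 := by
        by_contra hcon
        push Not at hcon
        have : ∑ i, e i = 0 := Finset.sum_eq_zero fun i _ => hcon i
        omega
      obtain ⟨i, hi⟩ := hex
      let e' : Fin 9 → ℕ := fun j => e j - (Pi.single i 1 : Fin 9 → ℕ) j
      have he : ∀ j, e j = e' j + (Pi.single i 1 : Fin 9 → ℕ) j := by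
        intro j
        by_cases hj : j = i
        · subst hj
          simp only [e', Pi.single_eq_same]
          omega
        · simp only [e', Pi.single_eq_of_ne hj]
          omega
      have hei : e i = e' i + 1 := by
        rw [he i, Pi.single_eq_same]
      have hej : ∀ j, j ≠ i → e j = e' j := by
        intro j hj
        rw [he j, Pi.single_eq_of_ne hj, add_zero]
      have hs' : ∑ j, e' j = n := by
        have h3 : ∑ j, e j = ∑ j, e' j + 1 := by
          rw [Finset.sum_congr rfl fun j _ => he j, Finset.sum_add_distrib]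
          congr 1
          rw [Finset.sum_pi_single' i 1 Finset.univ]
          simp
        omega
      have hcc : PowerSeries.constantCoeff (evK (w i) f) = 0 := by
        rw [← PowerSeries.X_dvd_iff]
        exact (dvd_pow_self _ hi).trans (hd i)
      have hf' : IsTh (κ + n + 1) c f := by
        rw [hs] at hf
        exact hf
      obtain ⟨N, g, hg, hgf⟩ := h1 k (w i) (κ + n) c f (by omega) hc hf' hcc
      have hmul : ∀ j, PowerSeries.X ^ e j ∣ evK (w j) (th (w i)) * evK (w j) g := by
        intro j
        rw [← map_mul, ← hgf, map_mul]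
        exact (hd j).mul_left _
      have hd' : ∀ j, PowerSeries.X ^ e' j ∣ evK (w j) g := by
        intro j
        by_cases hj : j = i
        · subst hj
          have h3 := hmul j
          rw [hei] at h3
          obtain ⟨z0, z1, _⟩ := h2 k (w j) (w j)
          exact dvd_of_simple z0 z1 h3
        · have h3 := hmul j
          rw [hej j hj] at h3
          obtain ⟨_, _, z2, _⟩ := h2 k (w i) (w j)
          exact dvd_of_unit (z2 fun h => hj (hw h)) h3
      have hc' : -((w i : kˣ) : k) * c ≠ 0 := mul_ne_zero (neg_ne_zero.2 (w i).ne_zero) hc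
      obtain ⟨N', g', hg', hgf'⟩ := ih e' κ _ g hs' hκ hc' (by rw [hs']; exact hg) hd'
      refine ⟨N + N', g', ?_, ?_⟩
      · have h3 : ∏ j, (-((w j : kˣ) : k)) ^ e j =
            (∏ j, (-((w j : kˣ) : k)) ^ e' j) * (-((w i : kˣ) : k)) := by
          rw [← prod_single (fun j => -((w j : kˣ) : k)) e' i]
          exact Finset.prod_congr rfl fun j _ => by rw [he j]
        have h4 : c * ∏ j, (-((w j : kˣ) : k)) ^ e j =
            -((w i : kˣ) : k) * c * ∏ j, (-((w j : kˣ) : k)) ^ e' j := by
          rw [h3]
          ring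
        rw [h4]
        exact hg'
      · have h3 : ∏ j, th (w j) ^ e j = (∏ j, th (w j) ^ e' j) * th (w i) := by
          rw [← prod_single (fun j => th (w j)) e' i]
          exact Finset.prod_congr rfl fun j _ => by rw [he j]
        calc PowerSeries.X ^ (N + N') * f = PowerSeries.X ^ N' * (PowerSeries.X ^ N * f) := by
              rw [pow_add]
              ring
          _ = th (w i) * (PowerSeries.X ^ N' * g) := by
              rw [hgf]
              ring
          _ = (∏ j, th (w j) ^ e j) * g' := by
              rw [hgf', h3]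
              ring
  intro e κ c f hκ hc hf hd
  exact key _ e κ c f rfl hκ hc hf hd

end Pool.Agent.Helper79.Tate.DVM
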