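import Pool.Agent.Helper97.Tate.Goals

/-! Project FewPoints (MP_d3128a_ag), packet TATE-SIG (helper79): endomorphisms. -/

set_option autoImplicit false

noncomputable section

namespace Pool.Agent.Helper79.Tate.SIG

open Pool.Agent.Helper97.Tate

lemma coeff_Th {k : Type} [Field k] (h2 : S_THC) (σ : k →+* k) {κ : ℕ} {r : ℤ} {c : k}
    (hc : c ≠ 0) (h0 : 0 ≤ r) (hr : r < κ) (N : ℕ) :
    (PowerSeries.coeff N (Th κ r (σ c))).coeff =
      Finsupp.mapRange σ (map_zero σ) (PowerSeries.coeff N (Th κ r c)).coeff := by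
  have hc' : σ c ≠ 0 := by
    intro h
    exact hc (by rwa [map_eq_zero] at h)
  ext n
  have e1 := (h2 k κ r c hc h0 hr).1 N n
  have e2 := (h2 k κ r (σ c) hc' h0 hr).1 N n
  unfold cf at e1 e2
  rw [if_pos (Int.natCast_nonneg N), Int.toNat_natCast] at e1 e2
  rw [Finsupp.mapRange_apply]
  refine e2.trans ?_
  have e3 := congrArg σ e1
  refine Eq.trans ?_ e3.symm
  split_ifs
  · rw [map_zpow₀]
  · rw [map_zero]

theorem t (h1 : S_EVC) (h2 : S_THC) : S_SIG := by
  intro k _ σ
  have hinj : Function.Injective (PowerSeries.map σ : OO k →+* OO k) :=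
    PowerSeries.map_injective σ σ.injective
  have hinj2 : Function.Injective
      ((algebraMap (OO k) (KK k)).comp (PowerSeries.map σ : OO k →+* OO k)) :=
    (IsFractionRing.injective (OO k) (KK k)).comp hinj
  refine ⟨IsFractionRing.lift hinj2, fun a => ?_, ?_⟩
  · rw [IsFractionRing.lift_algebraMap, RingHom.comp_apply, PowerSeries.map_C]
  · intro κ α r c x x' hx hc h0 hr
    rw [(h1 k x (Th κ r c) 0 α).2.1, (h1 k x' (Th κ r (σ c)) 0 α).2.1,
      IsFractionRing.lift_algebraMap, RingHom.comp_apply]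
    congr 1
    apply PowerSeries.ext
    intro N
    rw [PowerSeries.coeff_map, (h1 k x (Th κ r c) N α).1, (h1 k x' (Th κ r (σ c)) N α).1,
      coeff_Th h2 σ hc h0 hr N, Finsupp.sum_mapRange_index (by intro n; rw [zero_mul]),
      map_finsuppSum]
    apply Finsupp.sum_congr
    intro n _
    have hx' : (((x' ^ n : kˣ)) : k) = σ ((x ^ n : kˣ) : k) := by
      rw [Units.val_zpow_eq_zpow_val, Units.val_zpow_eq_zpow_val, map_zpow₀, hx]
    rw [map_mul, map_mul, map_intCast, hx']

end Pool.Agent.Helper79.Tate.SIG
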